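import Pool.Agent.H605.Fix.Short
import Pool.Agent.H605.Fix.Multiples

/-!
# Quantitative forms (exponent `θ`) for progressions of bounded length
-/

set_option autoImplicit false

open Finset Filter

namespace Pool.Agent.H605.FixT

open Pool.Agent.H605.Web Pool.Agent.H605.Fix

/-- all differences `1, …, N`, progressions of bounded length `k(ε)`, exponent `θ` -/
def FullT (θ : ℝ) : Prop :=
  ∀ ε : ℝ, 0 < ε → ∃ k : ℕ, ∃ N₀ : ℕ, ∀ N : ℕ, N₀ ≤ N → ∀ E : Finset ℤ,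
    (∀ d : ℕ, 1 ≤ d → d ≤ N → HasAP E k d) → (N : ℝ) ^ (θ - ε) ≤ (E.card : ℝ)

/-- sets of differences in `[1, N]`, progressions of bounded length `k(ε)`, exponent `θ` -/
def SetsT (θ : ℝ) : Prop :=
  ∀ ε : ℝ, 0 < ε → ∃ k : ℕ, ∃ N₀ : ℕ, ∀ N : ℕ, N₀ ≤ N → ∀ D : Finset ℕ,
    (∀ d ∈ D, 1 ≤ d ∧ d ≤ N) → ∀ E : Finset ℤ, (∀ d ∈ D, HasAP E k d) →
      (D.card : ℝ) ≤ (N : ℝ) ^ (1 - θ + ε) * (E.card : ℝ)

/-- arbitrary sets of differences, exponent `θ` -/
def AllT (θ : ℝ) : Prop :=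
  ∀ ε : ℝ, 0 < ε → ∃ k : ℕ, ∀ D E : Finset ℤ, D.Nonempty →
    (∀ d ∈ D, ∃ a : ℤ, ∀ j : ℕ, j < k → a + j * d ∈ E) → (D.card : ℝ) ^ (θ - ε) ≤ (E.card : ℝ)

/-- multiples in intervals of bounded ratio, exponent `θ` -/
def MultT (θ : ℝ) : Prop :=
  ∀ ε : ℝ, 0 < ε → ∃ k : ℕ, ∀ A : Finset ℕ, A.Nonempty → (∀ a ∈ A, 1 ≤ a) → ∀ x : ℕ,
    (A.card : ℝ) ^ (θ - ε) ≤
      (((Ioc x (x + k * A.sup id)).filter fun y => ∃ a ∈ A, a ∣ y).card : ℝ)

/-- residue classes for the primes of `[x, 2x)` in the interval `[1, k x]`, exponent `θ` -/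
def ShortT (θ : ℝ) : Prop :=
  ∀ ε : ℝ, 0 < ε → ∃ k : ℕ, ∃ x₀ : ℕ, ∀ x : ℕ, x₀ ≤ x → ∀ a : (p : ℕ) → ZMod p,
    (x : ℝ) ^ (θ - ε) ≤ (Set.ncard {n : ℕ | 1 ≤ n ∧ n ≤ k * x ∧
      ∃ p : ℕ, p.Prime ∧ x ≤ p ∧ p < 2 * x ∧ (n : ZMod p) = a p} : ℝ)

theorem setsT_of_fullT {θ : ℝ} (h : FullT θ) : SetsT θ := by
  intro ε hε
  obtain ⟨δ, hδ⟩ : ∃ δ, δ = ε / 2 := ⟨_, rfl⟩
  have hδ0 : 0 < δ := by rw [hδ]; positivity
  obtain ⟨k, N₁, hN₁⟩ := h δ hδ0
  obtain ⟨N₂, hN₂⟩ := eventually_atTop.1 (ev_log (2 * ((k : ℝ) + 1)) hδ0)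
  refine ⟨k, max (max N₁ N₂) 1, fun N hN D hD E hE => ?_⟩
  have hN1 : N₁ ≤ N := le_trans (le_trans (le_max_left _ _) (le_max_left _ _)) hN
  have hN2 : N₂ ≤ N := le_trans (le_trans (le_max_right _ _) (le_max_left _ _)) hN
  have hN3 : 1 ≤ N := le_trans (le_max_right _ _) hN
  have hNr : (1 : ℝ) ≤ N := by exact_mod_cast hN3
  have hN0 : (0 : ℝ) < N := by linarith
  have hlog := hN₂ N hN2
  rcases D.eq_empty_or_nonempty with rfl | hne
  · simp only [card_empty, Nat.cast_zero]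
    positivity
  have hDpos : (0 : ℝ) < D.card := by exact_mod_cast Finset.card_pos.2 hne
  have hDN : (D.card : ℝ) ≤ N := by
    have : D ⊆ Icc 1 N := fun d hd => mem_Icc.2 (hD d hd)
    have := Finset.card_le_card this
    rw [Nat.card_Icc, Nat.add_sub_cancel] at this
    exact_mod_cast this
  obtain ⟨T, hT1, hT2⟩ := translates D hD hne
  obtain ⟨E', hE1, hE2⟩ := fill E D T (k : ℝ) (Nat.cast_nonneg _) hE
  have h1 := hN₁ N hN1 E' (fun d hd1 hd2 => hE2 d (hT2 d hd1 hd2))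
  have hlog0 : 0 ≤ Real.log N := Real.log_nonneg hNr
  have hE0 : (0 : ℝ) ≤ E.card := Nat.cast_nonneg _
  have hk0 : (0 : ℝ) ≤ k := Nat.cast_nonneg _
  have h1' := h1.trans hE1
  clear hE1 h1 hN₁ hN₂ hE2 hE
  generalize (E.card : ℝ) = e at *
  generalize (D.card : ℝ) = dc at *
  generalize (T.card : ℝ) = tc at *
  have h2 : tc * dc ≤ 2 * N * (Real.log N + 1) := by
    calc tc * dc ≤ (2 * N / dc * Real.log N + 1) * dc :=
          mul_le_mul_of_nonneg_right hT1 hDpos.le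
      _ = 2 * N * Real.log N + dc := by field_simp
      _ ≤ _ := by nlinarith
  have h3 : (N : ℝ) ^ (θ - δ) * dc ≤ (N : ℝ) ^ (θ - δ) * ((N : ℝ) ^ (1 - θ + ε) * e) := by
    have e2 : (N : ℝ) ^ (θ - δ) * (N : ℝ) ^ (1 - θ + ε) = N * (N : ℝ) ^ δ := by
      rw [← Real.rpow_add hN0, ← Real.rpow_one_add' hN0.le (by linarith)]
      congr 1
      linarith
    calc (N : ℝ) ^ (θ - δ) * dc = dc * (N : ℝ) ^ (θ - δ) := by ring
      _ ≤ dc * (tc * ((k : ℝ) + 1) * e) := mul_le_mul_of_nonneg_left h1' hDpos.le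
      _ = (tc * dc) * (((k : ℝ) + 1) * e) := by ring
      _ ≤ (2 * N * (Real.log N + 1)) * (((k : ℝ) + 1) * e) :=
          mul_le_mul_of_nonneg_right h2 (by positivity)
      _ = N * (2 * ((k : ℝ) + 1) * (Real.log N + 1)) * e := by ring
      _ ≤ N * (N : ℝ) ^ δ * e := by
          apply mul_le_mul_of_nonneg_right _ hE0
          exact mul_le_mul_of_nonneg_left hlog hN0.le
      _ = _ := by rw [← e2]; ring
  exact le_of_mul_le_mul_left h3 (by positivity)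

theorem allT_of_setsT {θ : ℝ} (hθ0 : 0 ≤ θ) (hθ1 : θ ≤ 1) (h : SetsT θ) : AllT θ := by
  classical
  intro ε hε
  obtain ⟨δ, hδ⟩ : ∃ δ, δ = min ε 1 / 2 := ⟨_, rfl⟩
  have hmin : 0 < min ε 1 := lt_min hε one_pos
  have hδ0 : 0 < δ := by rw [hδ]; positivity
  have hδ1 : 2 * δ ≤ ε := by
    rw [hδ]
    have := min_le_left ε 1
    linarith
  have hδ2 : 2 * δ ≤ 1 := by
    rw [hδ]
    have := min_le_right ε 1
    linarith
  obtain ⟨k₀, N₀, hN₀⟩ := h δ hδ0
  obtain ⟨C, hC⟩ : ∃ C : ℝ, C = ((k₀ : ℝ) + 1) ^ 2 := ⟨_, rfl⟩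
  have hC1 : 1 ≤ C := by
    rw [hC]
    have : (0 : ℝ) ≤ k₀ := Nat.cast_nonneg _
    nlinarith
  obtain ⟨s₁, hs₁⟩ := eventually_atTop.1 (ev_pow (256 * C) hδ0)
  refine ⟨max (k₀ + 1) (max s₁ (max N₀ 4)), fun D E hDne hE => ?_⟩
  obtain ⟨k, hk⟩ : ∃ k, k = max (k₀ + 1) (max s₁ (max N₀ 4)) := ⟨_, rfl⟩
  rw [← hk] at hE
  have hk1 : k₀ + 1 ≤ k := by rw [hk]; exact le_max_left _ _
  have hk2 : s₁ ≤ k := by
    rw [hk]; exact le_trans (le_max_left _ _) (le_max_right _ _)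
  have hk3 : N₀ ≤ k := by
    rw [hk]
    exact le_trans (le_trans (le_max_left _ _) (le_max_right _ _)) (le_max_right _ _)
  have hk4 : 4 ≤ k := by
    rw [hk]
    exact le_trans (le_trans (le_max_right _ _) (le_max_right _ _)) (le_max_right _ _)
  obtain ⟨s, hs⟩ : ∃ s, s = D.card := ⟨_, rfl⟩
  have hs1 : 1 ≤ s := by rw [hs]; exact Finset.card_pos.2 hDne
  have hsr : (1 : ℝ) ≤ s := by exact_mod_cast hs1
  rw [← hs]
  rcases le_or_gt k s with hks | hks
  · -- large sets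
    obtain ⟨ψ, hψ1, hψ2, D', hD'1, hD'2, hD'3⟩ := exists_hash D hDne
    rw [← hs] at hψ1 hψ2 hD'2
    obtain ⟨D'', hD''⟩ : ∃ D'' : Finset ℕ, D'' = (D'.image fun d => (ψ d).toNat).erase 0 :=
      ⟨_, rfl⟩
    obtain ⟨E', hE'⟩ : ∃ E' : Finset ℤ, E' =
      ((E ×ˢ Icc (0 : ℤ) k₀) ×ˢ Icc (0 : ℤ) k₀).image fun z =>
        ψ z.1.1 + (8 * s : ℕ) * z.1.2 - z.2 := ⟨_, rfl⟩
    have hE'c : (E'.card : ℝ) ≤ C * E.card := by
      have h1 := Finset.card_image_le (s := (E ×ˢ Icc (0 : ℤ) k₀) ×ˢ Icc (0 : ℤ) k₀)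
        (f := fun z => ψ z.1.1 + (8 * s : ℕ) * z.1.2 - z.2)
      rw [← hE', card_product, card_product, Int.card_Icc] at h1
      have h2 : ((k₀ : ℤ) + 1 - 0).toNat = k₀ + 1 := by omega
      rw [h2] at h1
      have h3 : (E'.card : ℝ) ≤ E.card * (k₀ + 1) * (k₀ + 1) := by exact_mod_cast h1
      rw [hC]
      linarith
    have hD''c : (s : ℝ) / 4 ≤ D''.card := by
      have h1 : (D'.image fun d => (ψ d).toNat).card = D'.card := by
        apply card_image_of_injOn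
        intro d hd d' hd' hdd
        apply hD'3 hd hd'
        have a1 := (hψ1 d).1
        have a2 := (hψ1 d').1
        simp only at hdd
        omega
      have h2 : D'.card - 1 ≤ D''.card := by
        rw [hD'', ← h1]
        exact Finset.pred_card_le_card_erase
      have h3 : s ≤ 4 * D''.card := by omega
      have h4 : (s : ℝ) ≤ 4 * D''.card := by exact_mod_cast h3
      linarith
    have h1 := hN₀ (8 * s) (by omega) D'' (by
      intro d hd
      rw [hD'', mem_erase, mem_image] at hd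
      obtain ⟨hd0, d', hd', rfl⟩ := hd
      have := hψ1 d'
      omega) E' (by
      intro d hd
      rw [hD'', mem_erase, mem_image] at hd
      obtain ⟨hd0, d', hd', rfl⟩ := hd
      obtain ⟨a, ha⟩ := hE d' (hD'1 hd')
      refine ⟨ψ a, fun j hj => ?_⟩
      have hj' : j ≤ k₀ := by exact_mod_cast hj
      obtain ⟨w, e, hw0, hwj, he0, hej, heq⟩ := hψ2 a d' j
      rw [hE', mem_image]
      refine ⟨((a + j * d', w), e), ?_, ?_⟩
      · rw [mem_product, mem_product, mem_Icc, mem_Icc]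
        have hjk : (j : ℤ) ≤ k₀ := by exact_mod_cast hj'
        exact ⟨⟨ha j (by omega), hw0, hwj.trans hjk⟩, he0, hej.trans hjk⟩
      · simp only
        rw [Int.toNat_of_nonneg (hψ1 d').1]
        exact heq.symm)
    obtain ⟨e, he⟩ : ∃ e : ℝ, e = E.card := ⟨_, rfl⟩
    have he0 : 0 ≤ e := by rw [he]; exact Nat.cast_nonneg _
    rw [← he] at hE'c ⊢
    have h2 : (s : ℝ) / 4 ≤ 64 * (s : ℝ) ^ (1 - θ + δ) * (C * e) := by
      refine hD''c.trans (h1.trans ?_)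
      have h3 : (((8 * s : ℕ) : ℝ)) ^ (1 - θ + δ) ≤ 64 * (s : ℝ) ^ (1 - θ + δ) := by
        push_cast
        rw [Real.mul_rpow (by norm_num) (by linarith)]
        apply mul_le_mul_of_nonneg_right _ (by positivity)
        calc (8 : ℝ) ^ (1 - θ + δ) ≤ (8 : ℝ) ^ (2 : ℝ) :=
              Real.rpow_le_rpow_of_exponent_le (by norm_num) (by linarith)
          _ = 64 := by norm_num
      exact mul_le_mul h3 hE'c (Nat.cast_nonneg _) (by positivity)
    have h3 := hs₁ s (by omega)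
    have hs0 : (0 : ℝ) < s := by linarith
    have h4 : (s : ℝ) ^ (θ - ε) * ((s : ℝ) ^ (1 - θ + δ) * (s : ℝ) ^ δ) ≤
        e * ((s : ℝ) ^ (1 - θ + δ) * (s : ℝ) ^ δ) := by
      calc (s : ℝ) ^ (θ - ε) * ((s : ℝ) ^ (1 - θ + δ) * (s : ℝ) ^ δ) =
            (s : ℝ) ^ (θ - ε + (1 - θ + δ + δ)) := by
            rw [← Real.rpow_add hs0, ← Real.rpow_add hs0]
        _ ≤ (s : ℝ) ^ (1 : ℝ) := Real.rpow_le_rpow_of_exponent_le hsr (by linarith)
        _ = s := Real.rpow_one _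
        _ ≤ 256 * C * ((s : ℝ) ^ (1 - θ + δ) * e) := by linarith
        _ ≤ (s : ℝ) ^ δ * ((s : ℝ) ^ (1 - θ + δ) * e) :=
            mul_le_mul_of_nonneg_right h3 (by positivity)
        _ = _ := by ring
    exact le_of_mul_le_mul_right h4 (by positivity)
  · -- small sets
    have h1 : (s : ℝ) ^ (θ - ε) ≤ s := by
      calc (s : ℝ) ^ (θ - ε) ≤ (s : ℝ) ^ (1 : ℝ) :=
            Real.rpow_le_rpow_of_exponent_le hsr (by linarith)
        _ = s := Real.rpow_one _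
    refine h1.trans ?_
    have h2 : s ≤ E.card := by
      by_cases h0 : ∃ d ∈ D, d ≠ 0
      · obtain ⟨d, hd, hd0⟩ := h0
        obtain ⟨a, ha⟩ := hE d hd
        have h3 : (range k).card ≤ E.card := by
          apply Finset.card_le_card_of_injOn (fun j : ℕ => a + j * d)
          · intro j hj
            exact ha j (mem_range.1 (mem_coe.1 hj))
          · intro i _ j _ hij
            simp only at hij
            have h4 : ((i : ℤ) - j) * d = 0 := by linear_combination hij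
            rcases mul_eq_zero.1 h4 with h5 | h5
            · omega
            · exact absurd h5 hd0
        rw [card_range] at h3
        omega
      · push Not at h0
        obtain ⟨d, hd⟩ := hDne
        have h3 : D ⊆ {0} := fun x hx => mem_singleton.2 (h0 x hx)
        have h4 := Finset.card_le_card h3
        rw [card_singleton] at h4
        obtain ⟨a, ha⟩ := hE d hd
        have h5 : 0 < E.card := Finset.card_pos.2 ⟨_, ha 0 (by omega)⟩
        omega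
    exact_mod_cast h2

theorem multT_of_allT {θ : ℝ} (h : AllT θ) : MultT θ := by
  classical
  intro ε hε
  obtain ⟨k, hk⟩ := h ε hε
  refine ⟨k, fun A hA hA1 x => ?_⟩
  have h1 := hk (A.image fun a : ℕ => (a : ℤ))
    (((Ioc x (x + k * A.sup id)).filter fun y => ∃ a ∈ A, a ∣ y).image fun a : ℕ => (a : ℤ))
    (hA.image _) (by
      intro d hd
      obtain ⟨a, ha, rfl⟩ := mem_image.1 hd
      have ha1 := hA1 a ha
      refine ⟨((a * (x / a + 1) : ℕ) : ℤ), fun j hj => ?_⟩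
      rw [mem_image]
      refine ⟨a * (x / a + 1) + j * a, ?_, by push_cast; ring⟩
      rw [mem_filter, mem_Ioc]
      have e1 := Nat.div_add_mod x a
      have e2 := Nat.mod_lt x ha1
      have e3 : a * (x / a + 1) = a * (x / a) + a := by ring
      have e4 : (j + 1) * a ≤ k * A.sup id :=
        Nat.mul_le_mul (by omega) (Finset.le_sup (f := id) ha)
      have e5 : (j + 1) * a = j * a + a := by ring
      refine ⟨⟨by omega, by omega⟩, a, ha, ?_⟩
      exact dvd_add (dvd_mul_right _ _) (dvd_mul_left _ _))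
  rw [card_image_of_injective _ Nat.cast_injective, card_image_of_injective _ Nat.cast_injective]
    at h1
  exact h1

theorem setsT_of_multT {θ : ℝ} (hθ1 : θ ≤ 1) (h : MultT θ) : SetsT θ := by
  classical
  intro ε hε
  obtain ⟨δ, hδ⟩ : ∃ δ, δ = min ε 1 / 2 := ⟨_, rfl⟩
  have hmin : 0 < min ε 1 := lt_min hε one_pos
  have hδ0 : 0 < δ := by rw [hδ]; positivity
  have hδ1 : 2 * δ ≤ ε := by
    rw [hδ]
    have := min_le_left ε 1
    linarith
  obtain ⟨k, hk⟩ := h δ hδ0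
  obtain ⟨N₀, hN₀⟩ := eventually_atTop.1 (ev_pow ((k : ℝ) + 1) hδ0)
  refine ⟨k, max N₀ 1, fun N hN D hD E hE => ?_⟩
  have hN1 : N₀ ≤ N := le_trans (le_max_left _ _) hN
  have hN2 : 1 ≤ N := le_trans (le_max_right _ _) hN
  have hNr : (1 : ℝ) ≤ N := by exact_mod_cast hN2
  have hN0 : (0 : ℝ) < N := by linarith
  rcases D.eq_empty_or_nonempty with rfl | hne
  · simp only [card_empty, Nat.cast_zero]
    positivity
  have hDN : (D.card : ℝ) ≤ N := by
    have : D ⊆ Icc 1 N := fun d hd => mem_Icc.2 (hD d hd)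
    have := Finset.card_le_card this
    rw [Nat.card_Icc, Nat.add_sub_cancel] at this
    exact_mod_cast this
  have hD1 : (1 : ℝ) ≤ D.card := by exact_mod_cast Finset.card_pos.2 hne
  obtain ⟨A, hA1, hA2, hA3, x, hx⟩ := few_multiples hD hne E hE
  have h1 := hk A hA1 hA2 x
  rw [hA3] at h1
  have h2 : (((Ioc x (x + k * A.sup id)).filter fun y => ∃ a ∈ A, a ∣ y).card : ℝ) ≤
      (k + 1) * E.card := by exact_mod_cast hx
  have h3 := h1.trans h2
  have hE0 : (0 : ℝ) ≤ E.card := Nat.cast_nonneg _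
  have h4 := hN₀ N hN1
  generalize (E.card : ℝ) = e at *
  generalize (D.card : ℝ) = dc at *
  have hdc : 0 < dc := by linarith
  calc dc = dc ^ (1 - θ + δ) * dc ^ (θ - δ) := by
        rw [← Real.rpow_add hdc]; simp
    _ ≤ (N : ℝ) ^ (1 - θ + δ) * ((k + 1) * e) := by
        apply mul_le_mul _ h3 (by positivity) (by positivity)
        exact Real.rpow_le_rpow hdc.le hDN (by linarith)
    _ ≤ (N : ℝ) ^ (1 - θ + δ) * ((N : ℝ) ^ δ * e) := by
        apply mul_le_mul_of_nonneg_left _ (by positivity)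
        exact mul_le_mul_of_nonneg_right h4 hE0
    _ = (N : ℝ) ^ (1 - θ + δ + δ) * e := by rw [Real.rpow_add hN0 (1 - θ + δ)]; ring
    _ ≤ (N : ℝ) ^ (1 - θ + ε) * e := by
        apply mul_le_mul_of_nonneg_right _ hE0
        exact Real.rpow_le_rpow_of_exponent_le hNr (by linarith)

theorem shortT_of_setsT {θ : ℝ} (hθ0 : 0 ≤ θ) (hθ1 : θ ≤ 1) (h : SetsT θ) : ShortT θ := by
  classical
  intro ε hε
  obtain ⟨δ, hδ⟩ : ∃ δ, δ = min ε 1 / 4 := ⟨_, rfl⟩
  have hmin : 0 < min ε 1 := lt_min hε one_pos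
  have hδ0 : 0 < δ := by rw [hδ]; positivity
  have hδ1 : 4 * δ ≤ ε := by
    rw [hδ]
    have := min_le_left ε 1
    linarith
  have hδ2 : 4 * δ ≤ 1 := by
    rw [hδ]
    have := min_le_right ε 1
    linarith
  obtain ⟨k, N₀, hN₀⟩ := h δ hδ0
  have hdy := tendsto_natCast_atTop_atTop.eventually
    (Pool.Agent.H170R2.PC.dyadic_primes hδ0 (by linarith))
  have hev : ∀ᶠ x : ℕ in atTop, ∀ a : (p : ℕ) → ZMod p,
      (x : ℝ) ^ (θ - ε) ≤ ((Cv (PX x) a (2 * (k + 1) * x)).card : ℝ) := by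
    filter_upwards [hdy, ev_pow 4 hδ0, eventually_ge_atTop N₀, eventually_ge_atTop 1] with
      x h1 h2 h3 h4 a
    have hx : (1 : ℝ) ≤ x := by exact_mod_cast h4
    have hx0 : (0 : ℝ) < x := by linarith
    have h5 := h1 (PX x) (fun p hp hp1 hp2 => mem_PX.2 ⟨hp, by exact_mod_cast hp1,
      by exact_mod_cast hp2⟩)
    have hD : ∀ d ∈ PX x, 1 ≤ d ∧ d ≤ 2 * x := by
      intro d hd
      have := mem_PX.1 hd
      exact ⟨this.1.one_le, this.2.2.le⟩
    have h6 := windows hD (fun E hE => hN₀ (2 * x) (by omega) (PX x) hD E hE)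
      (fun p => ((a p).val : ℤ)) (2 * (k + 1) * x) (by push_cast; linarith) 0 1
    have h7 := part_le_Cv (fun p hp => (mem_PX.1 hp).1) a (2 * (k + 1) * x) (P := PX x)
    rw [Nat.cast_one, one_mul, zero_add] at h6
    have e0 : ((1 : ℕ) : ℤ) * ((2 * (k + 1) * x : ℕ) : ℤ) = ((2 * (k + 1) * x : ℕ) : ℤ) := by
      rw [Nat.cast_one, one_mul]
    rw [e0] at h6
    have h8 : ((Part (PX x) (fun p => ((a p).val : ℤ)) 0 (2 * (k + 1) * x : ℕ)).card : ℝ) ≤
        ((Cv (PX x) a (2 * (k + 1) * x)).card : ℝ) := by exact_mod_cast h7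
    obtain ⟨S, hS⟩ : ∃ S : ℝ, S = ((Cv (PX x) a (2 * (k + 1) * x)).card : ℝ) := ⟨_, rfl⟩
    rw [← hS] at h8 ⊢
    have h9 : (x : ℝ) ^ (1 - δ) ≤ (2 * x : ℝ) ^ (1 - θ + δ) * S := by
      refine h5.trans (h6.trans ?_)
      push_cast
      exact mul_le_mul_of_nonneg_left h8 (by positivity)
    have h10 : (2 * x : ℝ) ^ (1 - θ + δ) ≤ (x : ℝ) ^ δ * (x : ℝ) ^ (1 - θ + δ) := by
      rw [Real.mul_rpow (by norm_num) hx0.le]
      apply mul_le_mul_of_nonneg_right _ (by positivity)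
      calc (2 : ℝ) ^ (1 - θ + δ) ≤ (2 : ℝ) ^ (2 : ℝ) :=
            Real.rpow_le_rpow_of_exponent_le (by norm_num) (by linarith)
        _ = 4 := by norm_num
        _ ≤ _ := h2
    have hS0 : 0 ≤ S := by rw [hS]; exact Nat.cast_nonneg _
    have h11 : (x : ℝ) ^ (θ - ε) * ((x : ℝ) ^ δ * (x : ℝ) ^ (1 - θ + δ)) ≤
        S * ((x : ℝ) ^ δ * (x : ℝ) ^ (1 - θ + δ)) := by
      calc (x : ℝ) ^ (θ - ε) * ((x : ℝ) ^ δ * (x : ℝ) ^ (1 - θ + δ)) =
            (x : ℝ) ^ (θ - ε + (δ + (1 - θ + δ))) := by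
            rw [← Real.rpow_add hx0, ← Real.rpow_add hx0]
        _ ≤ (x : ℝ) ^ (1 - δ) := Real.rpow_le_rpow_of_exponent_le hx (by linarith)
        _ ≤ (2 * x : ℝ) ^ (1 - θ + δ) * S := h9
        _ ≤ ((x : ℝ) ^ δ * (x : ℝ) ^ (1 - θ + δ)) * S := mul_le_mul_of_nonneg_right h10 hS0
        _ = _ := by ring
    exact le_of_mul_le_mul_right h11 (by positivity)
  obtain ⟨x₀, hx₀⟩ := eventually_atTop.1 hev
  refine ⟨2 * (k + 1), x₀, fun x hx a => ?_⟩
  rw [ncard_eq]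
  exact hx₀ x hx a

theorem fullT_of_shortT {θ : ℝ} (hθ0 : 0 < θ) (hθ1 : θ ≤ 1) (h : ShortT θ) : FullT θ := by
  classical
  intro ε hε
  obtain ⟨δ, hδ⟩ : ∃ δ, δ = min ε θ / 4 := ⟨_, rfl⟩
  have hmin : 0 < min ε θ := lt_min hε hθ0
  have hδ0 : 0 < δ := by rw [hδ]; positivity
  have hδ1 : 4 * δ ≤ ε := by
    rw [hδ]
    have := min_le_left ε θ
    linarith
  have hδ2 : 4 * δ ≤ θ := by
    rw [hδ]
    have := min_le_right ε θ
    linarith
  obtain ⟨k, x₀, hx₀⟩ := h δ hδ0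
  obtain ⟨N₂, hN₂⟩ := eventually_atTop.1 (ev_pow 4 hδ0)
  refine ⟨2 * k, max (max (2 * x₀) N₂) 2, fun N hN E hE => ?_⟩
  have hN1 : 2 * x₀ ≤ N := le_trans (le_trans (le_max_left _ _) (le_max_left _ _)) hN
  have hN2 : N₂ ≤ N := le_trans (le_trans (le_max_right _ _) (le_max_left _ _)) hN
  have hN3 : 2 ≤ N := le_trans (le_max_right _ _) hN
  have hNr : (1 : ℝ) ≤ N := by exact_mod_cast (by omega : 1 ≤ N)
  have hN0 : (0 : ℝ) < N := by linarith
  obtain ⟨x, hx⟩ : ∃ x, x = N / 2 := ⟨_, rfl⟩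
  have hx1 : 1 ≤ x := by omega
  have hx2 : x₀ ≤ x := by omega
  have hx3 : 2 * x ≤ N := by omega
  have hx4 : N ≤ 4 * x := by omega
  have hxr : (1 : ℝ) ≤ x := by exact_mod_cast hx1
  have hx4r : (N : ℝ) ≤ 4 * x := by exact_mod_cast hx4
  have h4 := hN₂ N hN2
  -- `k ≥ 1`
  have hk : 1 ≤ k := by
    rcases Nat.eq_zero_or_pos k with h0 | h0
    · have h5 := hx₀ x hx2 (fun _ => 0)
      rw [ncard_eq, h0, zero_mul] at h5
      have h6 : (0 : ℝ) < (x : ℝ) ^ (θ - δ) := by positivity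
      simp at h5
      linarith
    · exact h0
  obtain ⟨a, ha⟩ := Cv_le (n := k * x) (by nlinarith) (PX x) (fun p hp => (mem_PX.1 hp).1) E
    ((2 * k : ℕ) : ℝ) (fun p hp => by
      obtain ⟨hp1, hp2, hp3⟩ := mem_PX.1 hp
      refine ⟨hE p hp1.one_le (by omega), ?_⟩
      have : (x : ℝ) ≤ p := by exact_mod_cast hp2
      push_cast
      nlinarith)
  have h5 := hx₀ x hx2 a
  rw [ncard_eq] at h5
  have h6 : ((Cv (PX x) a (k * x)).card : ℝ) ≤ E.card := by exact_mod_cast ha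
  refine le_trans ?_ (h5.trans h6)
  calc (N : ℝ) ^ (θ - ε) ≤ (N : ℝ) ^ (θ - 2 * δ) :=
        Real.rpow_le_rpow_of_exponent_le hNr (by linarith)
    _ ≤ (x : ℝ) ^ (θ - δ) := by
        have h7 : (N : ℝ) ^ (θ - 2 * δ) * 4 ≤ (x : ℝ) ^ (θ - δ) * 4 := by
          calc (N : ℝ) ^ (θ - 2 * δ) * 4 ≤ (N : ℝ) ^ (θ - 2 * δ) * (N : ℝ) ^ δ :=
                mul_le_mul_of_nonneg_left h4 (by positivity)
            _ = (N : ℝ) ^ (θ - δ) := by
                rw [← Real.rpow_add hN0]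
                congr 1
                ring
            _ ≤ (4 * x : ℝ) ^ (θ - δ) := Real.rpow_le_rpow hN0.le hx4r (by linarith)
            _ = (4 : ℝ) ^ (θ - δ) * (x : ℝ) ^ (θ - δ) :=
                Real.mul_rpow (by norm_num) (by linarith)
            _ ≤ 4 * (x : ℝ) ^ (θ - δ) := by
                apply mul_le_mul_of_nonneg_right _ (by positivity)
                calc (4 : ℝ) ^ (θ - δ) ≤ (4 : ℝ) ^ (1 : ℝ) :=
                      Real.rpow_le_rpow_of_exponent_le (by norm_num) (by linarith)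
                  _ = 4 := Real.rpow_one _
            _ = _ := by ring
        linarith

end Pool.Agent.H605.FixT
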