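import Pool.Agent.H605.FixT.Basic
import Pool.Agent.H605.Fix.Proj2

/-!
# Quantitative forms (exponent `θ`): the projection form
-/

set_option autoImplicit false

open Finset Filter

namespace Pool.Agent.H605.FixT

open Pool.Agent.H605.Web Pool.Agent.H605.Fix

/-- the projection form with exponent `1 / θ` -/
def ProjT (θ : ℝ) : Prop :=
  ∀ ε : ℝ, 0 < ε →
    ∃ S : Finset ℚ, (-1 : ℚ) ∉ S ∧
      ∀ A : Finset (ℤ × ℤ),
        ((A.image (fun p : ℤ × ℤ => (p.1 : ℚ) + (-1) * (p.2 : ℚ))).card : ℝ) ≤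
          (max ((A.image (fun p : ℤ × ℤ => (p.2 : ℚ))).card : ℝ)
              ((S.sup (fun r : ℚ =>
                  (A.image (fun p : ℤ × ℤ => (p.1 : ℚ) + r * (p.2 : ℚ))).card) : ℕ) : ℝ))
            ^ (1 / θ + ε)

theorem allT_of_projT {θ : ℝ} (hθ0 : 0 < θ) (hθ1 : θ ≤ 1) (h : ProjT θ) : AllT θ := by
  classical
  intro ε hε
  obtain ⟨S, hS1, hS⟩ := h ε hε
  -- a common multiple of the numerators of `1 + r`
  obtain ⟨m, hm⟩ : ∃ m : ℕ, m = ∏ r ∈ S, (1 + r).num.natAbs := ⟨_, rfl⟩
  have hne : ∀ r ∈ S, (1 : ℚ) + r ≠ 0 := by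
    intro r hr h0
    have : r = -1 := by linarith
    exact hS1 (this ▸ hr)
  have hm0 : 0 < m := by
    rw [hm]
    apply Finset.prod_pos
    intro r hr
    exact Int.natAbs_pos.2 (Rat.num_ne_zero.2 (hne r hr))
  have hint : ∀ r : ℚ, ∃ z : ℤ, r ∈ S → (m : ℚ) = (1 + r) * z := by
    intro r
    by_cases hr : r ∈ S
    · have hd : (1 + r).num.natAbs ∣ m := by
        rw [hm]
        exact Finset.dvd_prod_of_mem _ hr
      have hd' : (1 + r).num ∣ (m : ℤ) := by
        rw [← Int.natAbs_dvd_natAbs]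
        simpa using hd
      obtain ⟨c, hc⟩ := hd'
      refine ⟨c * (1 + r).den, fun _ => ?_⟩
      have e1 : (m : ℚ) = ((1 + r).num : ℚ) * c := by exact_mod_cast hc
      have e2 : (1 + r) * ((1 + r).den : ℚ) = (1 + r).num := Rat.mul_den_eq_num _
      push_cast
      rw [e1, ← e2]; ring
    · exact ⟨0, fun h => absurd h hr⟩
  choose z hz using hint
  obtain ⟨v, hv⟩ : ∃ v : ℕ, v = ∑ r ∈ S, (z r).natAbs := ⟨_, rfl⟩
  have hzv : ∀ r ∈ S, (z r).natAbs ≤ v := by
    intro r hr
    rw [hv]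
    exact Finset.single_le_sum (f := fun r => (z r).natAbs) (fun _ _ => Nat.zero_le _) hr
  refine ⟨2 * v + m + 1, fun D E hD hE => ?_⟩
  have hex : ∀ d : ℤ, ∃ a : ℤ, d ∈ D → ∀ j : ℕ, j < 2 * v + m + 1 → a + j * d ∈ E := by
    intro d
    by_cases hd : d ∈ D
    · obtain ⟨a, ha⟩ := hE d hd
      exact ⟨a, fun _ => ha⟩
    · exact ⟨0, fun h => absurd h hd⟩
  choose a ha using hex
  have h1 := hS (D.image fun d => (a d + (v + m : ℕ) * d, a d + (v : ℕ) * d))
  -- the difference projection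
  have c1 : (D.card : ℝ) ≤ (((D.image fun d => (a d + (v + m : ℕ) * d, a d + (v : ℕ) * d)).image
      (fun p : ℤ × ℤ => (p.1 : ℚ) + (-1) * (p.2 : ℚ))).card : ℝ) := by
    rw [Finset.image_image]
    have : (D.image ((fun p : ℤ × ℤ => (p.1 : ℚ) + (-1) * (p.2 : ℚ)) ∘
        fun d => (a d + (v + m : ℕ) * d, a d + (v : ℕ) * d))).card = D.card := by
      apply Finset.card_image_of_injective
      intro d d' hdd
      simp only [Function.comp_apply] at hdd
      push_cast at hdd
      have hmq : (m : ℚ) ≠ 0 := by exact_mod_cast hm0.ne'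
      have : (m : ℚ) * (d : ℚ) = m * d' := by linear_combination hdd
      have := mul_left_cancel₀ hmq this
      exact_mod_cast this
    rw [this]
  -- the other projections
  have c2 : ((D.image fun d => (a d + (v + m : ℕ) * d, a d + (v : ℕ) * d)).image
      (fun p : ℤ × ℤ => (p.2 : ℚ))).card ≤ E.card := by
    have : (D.image fun d => (a d + (v + m : ℕ) * d, a d + (v : ℕ) * d)).image
      (fun p : ℤ × ℤ => (p.2 : ℚ)) ⊆ E.image fun e : ℤ => (e : ℚ) := by
      intro q hq
      rw [Finset.image_image] at hq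
      obtain ⟨d, hd, rfl⟩ := Finset.mem_image.1 hq
      exact Finset.mem_image.2 ⟨a d + (v : ℕ) * d, ha d hd v (by omega), rfl⟩
    exact (Finset.card_le_card this).trans Finset.card_image_le
  have c3 : ∀ r ∈ S, ((D.image fun d => (a d + (v + m : ℕ) * d, a d + (v : ℕ) * d)).image
      (fun p : ℤ × ℤ => (p.1 : ℚ) + r * (p.2 : ℚ))).card ≤ E.card := by
    intro r hr
    have : (D.image fun d => (a d + (v + m : ℕ) * d, a d + (v : ℕ) * d)).image
      (fun p : ℤ × ℤ => (p.1 : ℚ) + r * (p.2 : ℚ)) ⊆ E.image fun e : ℤ => (1 + r) * (e : ℚ) := by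
      intro q hq
      rw [Finset.image_image] at hq
      obtain ⟨d, hd, rfl⟩ := Finset.mem_image.1 hq
      have hzr := hzv r hr
      have hnn : 0 ≤ (v : ℤ) + z r := by omega
      obtain ⟨j, hj⟩ := Int.eq_ofNat_of_zero_le hnn
      refine Finset.mem_image.2 ⟨a d + j * d, ha d hd j ?_, ?_⟩
      · omega
      · have e1 : (m : ℚ) = (1 + r) * z r := hz r hr
        have e2 : (j : ℚ) = v + z r := by exact_mod_cast hj.symm
        simp only [Function.comp_apply]
        push_cast
        rw [e2]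
        linear_combination (-(d : ℚ)) * e1
    exact (Finset.card_le_card this).trans Finset.card_image_le
  have c4 : (max (((D.image fun d => (a d + (v + m : ℕ) * d, a d + (v : ℕ) * d)).image
      (fun p : ℤ × ℤ => (p.2 : ℚ))).card : ℝ) ((S.sup (fun r : ℚ =>
                  ((D.image fun d => (a d + (v + m : ℕ) * d, a d + (v : ℕ) * d)).image
                    (fun p : ℤ × ℤ => (p.1 : ℚ) + r * (p.2 : ℚ))).card) : ℕ) : ℝ)) ≤
        (E.card : ℝ) := by
    apply max_le
    · exact_mod_cast c2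
    · exact_mod_cast Finset.sup_le c3
  obtain ⟨u, hu⟩ : ∃ u : ℝ, u = 1 / θ := ⟨_, rfl⟩
  have hu1 : θ * u = 1 := by rw [hu]; field_simp
  have hu2 : 1 ≤ u := by rw [hu, le_div_iff₀ hθ0]; linarith
  rw [← hu] at h1
  have hpos : 0 < u + ε := by linarith
  have h2 : (D.card : ℝ) ≤ (E.card : ℝ) ^ (u + ε) := by
    refine c1.trans (h1.trans ?_)
    exact Real.rpow_le_rpow (le_trans (Nat.cast_nonneg _) (le_max_left _ _)) c4 (by linarith)
  have hDpos : (1 : ℝ) ≤ D.card := by exact_mod_cast Finset.card_pos.2 hD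
  have hE0 : (0 : ℝ) ≤ E.card := Nat.cast_nonneg _
  have h3 : ((E.card : ℝ) ^ (u + ε)) ^ (1 / (u + ε)) = E.card := by
    rw [← Real.rpow_mul hE0, mul_one_div_cancel (by linarith), Real.rpow_one]
  calc (D.card : ℝ) ^ (θ - ε) ≤ (D.card : ℝ) ^ (1 / (u + ε)) := by
        apply Real.rpow_le_rpow_of_exponent_le hDpos
        rw [le_div_iff₀ hpos]
        nlinarith
    _ ≤ ((E.card : ℝ) ^ (u + ε)) ^ (1 / (u + ε)) :=
        Real.rpow_le_rpow (by linarith) h2 (by positivity)
    _ = _ := h3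

theorem projT_of_allT {θ : ℝ} (hθ0 : 0 < θ) (h : AllT θ) : ProjT θ := by
  classical
  intro ε hε
  obtain ⟨g, hg⟩ : ∃ g : ℝ, g = 1 / (1 / θ + ε) := ⟨_, rfl⟩
  have hg0 : 0 < g := by rw [hg]; positivity
  have hgθ : g < θ := by
    rw [hg, div_lt_iff₀ (by positivity), mul_add, mul_one_div_cancel hθ0.ne']
    nlinarith
  have hg1 : g * (1 / θ + ε) = 1 := by
    rw [hg]; exact one_div_mul_cancel (by positivity)
  obtain ⟨k, hk⟩ := h (θ - g) (by linarith)
  rw [sub_sub_cancel] at hk
  refine ⟨(Ico 1 k).image fun j : ℕ => (1 - (j : ℚ)) / j, ?_, fun A => ?_⟩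
  · rw [mem_image]
    rintro ⟨j, hj, hj'⟩
    have hj0 : (j : ℚ) ≠ 0 := by
      have := (mem_Ico.1 hj).1
      positivity
    field_simp at hj'
    linarith
  obtain ⟨M, hM⟩ : ∃ M : ℕ, M = max (A.image (fun p : ℤ × ℤ => (p.2 : ℚ))).card
      (((Ico 1 k).image fun j : ℕ => (1 - (j : ℚ)) / j).sup (fun r : ℚ =>
                  (A.image (fun p : ℤ × ℤ => (p.1 : ℚ) + r * (p.2 : ℚ))).card)) := ⟨_, rfl⟩
  have hM' : (max ((A.image (fun p : ℤ × ℤ => (p.2 : ℚ))).card : ℝ)
      ((((Ico 1 k).image fun j : ℕ => (1 - (j : ℚ)) / j).sup (fun r : ℚ =>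
                  (A.image (fun p : ℤ × ℤ => (p.1 : ℚ) + r * (p.2 : ℚ))).card) : ℕ) : ℝ)) = M := by
    rw [hM, Nat.cast_max]
  rw [hM']
  rcases A.eq_empty_or_nonempty with rfl | hA
  · simp only [image_empty, card_empty, Nat.cast_zero]
    positivity
  have hM1 : 1 ≤ M := by
    rw [hM]
    exact le_trans (Finset.card_pos.2 (hA.image _)) (le_max_left _ _)
  -- bound for the integer projections
  have hP : ∀ j : ℕ, j < k → (A.image fun p : ℤ × ℤ => (j : ℤ) * p.1 + (1 - j) * p.2).card ≤ M := by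
    intro j hj
    rcases Nat.eq_zero_or_pos j with rfl | hj0
    · rw [hM]
      refine le_trans ?_ (le_max_left _ _)
      have : (A.image (fun p : ℤ × ℤ => (p.2 : ℚ))) =
          (A.image fun p : ℤ × ℤ => ((0 : ℕ) : ℤ) * p.1 + (1 - ((0 : ℕ) : ℤ)) * p.2).image
            fun z : ℤ => (z : ℚ) := by
        rw [Finset.image_image]
        apply Finset.image_congr
        intro p _
        simp
      rw [this, Finset.card_image_of_injective _ Int.cast_injective]
    · rw [hM]
      refine le_trans ?_ (le_max_right _ _)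
      have hmem : (1 - (j : ℚ)) / j ∈ (Ico 1 k).image fun j : ℕ => (1 - (j : ℚ)) / j :=
        mem_image_of_mem _ (mem_Ico.2 ⟨hj0, hj⟩)
      refine le_trans ?_ (Finset.le_sup (f := fun r : ℚ =>
        (A.image (fun p : ℤ × ℤ => (p.1 : ℚ) + r * (p.2 : ℚ))).card) hmem)
      have hj0' : (j : ℚ) ≠ 0 := by positivity
      have : (A.image fun p : ℤ × ℤ => (j : ℤ) * p.1 + (1 - j) * p.2).image (fun z : ℤ => (z : ℚ)) =
          (A.image (fun p : ℤ × ℤ => (p.1 : ℚ) + (1 - (j : ℚ)) / j * (p.2 : ℚ))).image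
            fun q => (j : ℚ) * q := by
        rw [Finset.image_image, Finset.image_image]
        apply Finset.image_congr
        intro p _
        simp only [Function.comp_apply]
        push_cast
        field_simp
      rw [← Finset.card_image_of_injective _ (Int.cast_injective (α := ℚ)), this]
      exact Finset.card_image_le
  -- the difference projection
  have hD : (A.image (fun p : ℤ × ℤ => (p.1 : ℚ) + (-1) * (p.2 : ℚ))).card =
      (A.image fun p : ℤ × ℤ => p.1 - p.2).card := by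
    have : (A.image (fun p : ℤ × ℤ => (p.1 : ℚ) + (-1) * (p.2 : ℚ))) =
        (A.image fun p : ℤ × ℤ => p.1 - p.2).image fun z : ℤ => (z : ℚ) := by
      rw [Finset.image_image]
      apply Finset.image_congr
      intro p _
      simp only [Function.comp_apply]
      push_cast; ring
    rw [this, Finset.card_image_of_injective _ Int.cast_injective]
  rw [hD]
  obtain ⟨dc, hdc⟩ : ∃ dc : ℕ, dc = (A.image fun p : ℤ × ℤ => p.1 - p.2).card := ⟨_, rfl⟩
  rw [← hdc]
  have hdc1 : 1 ≤ dc := by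
    rw [hdc]
    exact Finset.card_pos.2 (hA.image _)
  have hdcr : (1 : ℝ) ≤ dc := by exact_mod_cast hdc1
  have hMr : (1 : ℝ) ≤ M := by exact_mod_cast hM1
  have hM0 : (0 : ℝ) < M := by linarith
  -- the power inequality
  have hpow : ∀ n : ℕ, ((dc : ℝ) ^ g) ^ n ≤ k * (M : ℝ) ^ n := by
    intro n
    obtain ⟨A', h1, h2⟩ := power_set A n
    rw [← hdc] at h1
    have hne : (A'.image fun p : ℤ × ℤ => p.1 - p.2).Nonempty := by
      rw [← Finset.card_pos]
      exact lt_of_lt_of_le (by positivity) h1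
    have h3 := hk (A'.image fun p : ℤ × ℤ => p.1 - p.2)
      ((range k).biUnion fun j => A'.image fun p : ℤ × ℤ => (j : ℤ) * p.1 + (1 - j) * p.2) hne (by
        intro d hd
        obtain ⟨p, hp, rfl⟩ := mem_image.1 hd
        refine ⟨p.2, fun j hj => mem_biUnion.2 ⟨j, mem_range.2 hj, mem_image.2 ⟨p, hp, ?_⟩⟩⟩
        ring)
    have h4 : (((range k).biUnion fun j =>
        A'.image fun p : ℤ × ℤ => (j : ℤ) * p.1 + (1 - j) * p.2).card : ℝ) ≤ k * (M : ℝ) ^ n := by
      have : ((range k).biUnion fun j =>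
        A'.image fun p : ℤ × ℤ => (j : ℤ) * p.1 + (1 - j) * p.2).card ≤ k * M ^ n := by
        refine Finset.card_biUnion_le.trans ?_
        calc _ ≤ ∑ _j ∈ range k, M ^ n := by
              apply Finset.sum_le_sum
              intro j hj
              exact (h2 j).trans (Nat.pow_le_pow_left (hP j (mem_range.1 hj)) n)
          _ = _ := by rw [Finset.sum_const, Finset.card_range, smul_eq_mul]
      exact_mod_cast this
    have h5 : ((dc : ℝ) ^ g) ^ n ≤
        ((A'.image fun p : ℤ × ℤ => p.1 - p.2).card : ℝ) ^ g := by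
      rw [← Real.rpow_natCast, ← Real.rpow_mul (by positivity), mul_comm,
        Real.rpow_mul (by positivity), Real.rpow_natCast]
      apply Real.rpow_le_rpow (by positivity)
      · exact_mod_cast h1
      · exact hg0.le
    linarith
  have hle : (dc : ℝ) ^ g ≤ M := by
    by_contra hcon
    push Not at hcon
    obtain ⟨n, hn⟩ := pow_unbounded_of_one_lt (k : ℝ)
      ((one_lt_div hM0).2 hcon)
    rw [div_pow, lt_div_iff₀ (by positivity)] at hn
    linarith [hpow n]
  calc (dc : ℝ) = ((dc : ℝ) ^ g) ^ (1 / θ + ε) := by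
        rw [← Real.rpow_mul (by linarith), hg1, Real.rpow_one]
    _ ≤ _ := Real.rpow_le_rpow (by positivity) hle (by positivity)

end Pool.Agent.H605.FixT
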