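import Pool.Agent.H605.FixT.Proj
import Pool.Agent.H605.Fix.RealSets2

/-!
# Quantitative forms (exponent `θ`): sets in `ℝ^n`
-/

set_option autoImplicit false

open Finset Filter

namespace Pool.Agent.H605.FixT

open Pool.Agent.H605.Web Pool.Agent.H605.Fix

/-- upper Minkowski dimension at least `n θ - ε` -/
def RealT (θ : ℝ) : Prop :=
  ∀ n : ℕ, ∀ ε : ℝ, 0 < ε → ∃ k : ℕ,
    ∀ B : Set (EuclideanSpace ℝ (Fin n)),
      (∀ d : EuclideanSpace ℝ (Fin n), (∀ i, d i ∈ Set.Icc (0:ℝ) 1) →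
        ∃ a : EuclideanSpace ℝ (Fin n), ∀ j : ℕ, j < k → a + (j : ℝ) • d ∈ B) →
      ∀ δ₀ : ℝ, 0 < δ₀ → ∃ δ : ℝ, 0 < δ ∧ δ < δ₀ ∧
        ∀ S : Finset (EuclideanSpace ℝ (Fin n)),
          B ⊆ (⋃ x ∈ S, Metric.ball x δ) →
          δ ^ (-((n : ℝ) * θ - ε)) ≤ (S.card : ℝ)

set_option maxHeartbeats 1000000 in
theorem fullT_of_realT {θ : ℝ} (hθ1 : θ ≤ 1) (h : RealT θ) : FullT θ := by
  classical
  intro ε hε
  rcases le_or_gt θ ε with hε1 | hε1
  · -- trivial range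
    refine ⟨1, 1, fun N hN E hE => ?_⟩
    have hNr : (1 : ℝ) ≤ N := by exact_mod_cast hN
    obtain ⟨a, ha⟩ := hE 1 le_rfl hN
    have h1 : 0 < E.card := Finset.card_pos.2 ⟨_, ha 0 (by norm_num)⟩
    calc (N : ℝ) ^ (θ - ε) ≤ (N : ℝ) ^ (0 : ℝ) :=
          Real.rpow_le_rpow_of_exponent_le hNr (by linarith)
      _ = 1 := Real.rpow_zero _
      _ ≤ E.card := by exact_mod_cast h1
  obtain ⟨k, hk⟩ := h 1 (ε / 2) (by positivity)
  refine ⟨k, 2, fun N hN E hE => ?_⟩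
  by_contra hcon
  push Not at hcon
  have hNr : (2 : ℝ) ≤ N := by exact_mod_cast hN
  have hN0 : (0 : ℝ) < N := by linarith
  have : NeZero N := ⟨by omega⟩
  obtain ⟨a1, ha1⟩ := hE 1 le_rfl (by omega)
  have hEne : E.Nonempty := ⟨_, ha1 0 (by simp)⟩
  obtain ⟨e₀, he₀⟩ := hEne
  -- the first terms for the digits
  have hA : ∀ c : Fin N, ∃ a : ℤ, ∀ j : ℕ, j < k → a + j * (c : ℕ) ∈ E := by
    intro c
    rcases Nat.eq_zero_or_pos (c : ℕ) with h0 | h0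
    · refine ⟨e₀, fun j _ => ?_⟩
      rw [h0]
      simpa using he₀
    · obtain ⟨a, ha⟩ := hE c h0 c.isLt.le
      exact ⟨a, fun j hj => ha j (by exact_mod_cast hj.le)⟩
  choose A hA using hA
  -- a bound for the elements of `E`
  obtain ⟨C, hC1, hCE⟩ : ∃ C : ℝ, 1 ≤ C ∧ ∀ e ∈ E, |(e : ℝ)| ≤ C := by
    refine ⟨1 + ∑ e ∈ E, |(e : ℝ)|, ?_, fun e he => ?_⟩
    · have : 0 ≤ ∑ e ∈ E, |(e : ℝ)| := Finset.sum_nonneg fun _ _ => abs_nonneg _
      linarith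
    · have := Finset.single_le_sum (f := fun e : ℤ => |(e : ℝ)|) (fun _ _ => abs_nonneg _) he
      linarith
  obtain ⟨B, hB⟩ : ∃ B : Set (EuclideanSpace ℝ (Fin 1)), B =
    {x | ∃ e : ℕ → ℤ, (∀ i, e i ∈ E) ∧ x = pt (val N e)} := ⟨_, rfl⟩
  obtain ⟨Y, hY⟩ : ∃ Y : ℝ, Y = C * N := ⟨_, rfl⟩
  have hY1 : 1 ≤ Y := by rw [hY]; nlinarith
  obtain ⟨δ₀, hδ₀⟩ : ∃ δ₀ : ℝ, δ₀ = min 1 ((2 * Y) ^ (-(2 / ε))) := ⟨_, rfl⟩
  have hδ₀0 : 0 < δ₀ := by rw [hδ₀]; positivity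
  obtain ⟨δ, hδ, hδδ₀, hS⟩ := hk B (by
    intro d hd
    obtain ⟨dig, -, hdig⟩ := Real.ofDigits_SurjOn (b := N) (by omega) (hd 0)
    refine ⟨pt (val N fun i => A (dig i)), fun j hj => ?_⟩
    rw [hB]
    refine ⟨fun i => A (dig i) + j * ((dig i : ℕ) : ℤ), fun i => hA (dig i) j hj, ?_⟩
    have hd' : d = pt (d 0) := by
      ext i
      rw [Subsingleton.elim i 0]
      rfl
    rw [hd', ← hdig]
    have hs1 : Summable fun i => ((A (dig i) : ℤ) : ℝ) * ((N : ℝ) ^ (i + 1))⁻¹ := by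
      obtain ⟨C', hC'⟩ : ∃ C' : ℝ, ∀ c : Fin N, |((A c : ℤ) : ℝ)| ≤ C' :=
        ⟨∑ c, |((A c : ℤ) : ℝ)|, fun c =>
          Finset.single_le_sum (f := fun c => |((A c : ℤ) : ℝ)|) (fun _ _ => abs_nonneg _)
            (mem_univ c)⟩
      exact summable_val hN (C := C') fun i => hC' _
    have hs2 : Summable fun i => (j : ℝ) * (((dig i : ℕ) : ℝ) * ((N : ℝ) ^ (i + 1))⁻¹) :=
      (Real.summable_ofDigitsTerm (digits := dig)).mul_left _
    have e1 : val N (fun i => A (dig i) + j * ((dig i : ℕ) : ℤ)) =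
        val N (fun i => A (dig i)) + j * Real.ofDigits dig := by
      rw [Fix.val, Fix.val, Real.ofDigits, ← tsum_mul_left]
      rw [← hs1.tsum_add (g := fun i => (j : ℝ) * Real.ofDigitsTerm dig i) hs2]
      refine tsum_congr fun i => ?_
      rw [Real.ofDigitsTerm]
      push_cast
      ring
    rw [e1]
    ext i
    simp [pt]) δ₀ hδ₀0
  have hδ1 : δ < 1 := lt_of_lt_of_le hδδ₀ (by rw [hδ₀]; exact min_le_left _ _)
  -- the level
  have hex : ∃ m : ℕ, C * ((N : ℝ) ^ m)⁻¹ < δ := by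
    obtain ⟨m, hm⟩ := exists_pow_lt_of_lt_one (show 0 < δ / C by positivity)
      (inv_lt_one_of_one_lt₀ (by linarith : (1 : ℝ) < N))
    refine ⟨m, ?_⟩
    rw [inv_pow, lt_div_iff₀ (by linarith)] at hm
    linarith
  obtain ⟨m, hm, hmin⟩ : ∃ m : ℕ, C * ((N : ℝ) ^ m)⁻¹ < δ ∧
      ∀ m' < m, ¬ C * ((N : ℝ) ^ m')⁻¹ < δ :=
    ⟨Nat.find hex, Nat.find_spec hex, fun m' hm' => Nat.find_min hex hm'⟩
  have hm1 : 1 ≤ m := by
    rcases Nat.eq_zero_or_pos m with h0 | h0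
    · rw [h0, pow_zero, inv_one, mul_one] at hm
      linarith
    · exact h0
  have hNm : (N : ℝ) ^ m ≤ Y / δ := by
    have h1 := hmin (m - 1) (by omega)
    push Not at h1
    rw [le_div_iff₀ hδ]
    have h2 : (N : ℝ) ^ m = N * (N : ℝ) ^ (m - 1) := by
      rw [← pow_succ']; congr 1; omega
    have h3 : (0 : ℝ) < (N : ℝ) ^ (m - 1) := by positivity
    rw [← div_eq_mul_inv, le_div_iff₀ h3] at h1
    rw [h2, hY]
    nlinarith
  -- the covering
  obtain ⟨S, hSd⟩ : ∃ S : Finset (EuclideanSpace ℝ (Fin 1)), S =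
    (Fintype.piFinset fun _ : Fin m => E).image fun e =>
      pt (∑ i : Fin m, (e i : ℝ) * ((N : ℝ) ^ ((i : ℕ) + 1))⁻¹) := ⟨_, rfl⟩
  have hScard : S.card ≤ E.card ^ m := by
    rw [hSd]
    refine card_image_le.trans (le_of_eq ?_)
    rw [Fintype.card_piFinset, Finset.prod_const, card_univ, Fintype.card_fin]
  have h1 := hS S (by
    intro x hx
    rw [hB] at hx
    obtain ⟨e, he, rfl⟩ := hx
    rw [Set.mem_iUnion₂]
    refine ⟨pt (∑ i : Fin m, (e i : ℝ) * ((N : ℝ) ^ ((i : ℕ) + 1))⁻¹), ?_, ?_⟩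
    · rw [hSd, mem_image]
      exact ⟨fun i => e i, Fintype.mem_piFinset.2 fun i => he i, rfl⟩
    · rw [Metric.mem_ball, dist_pt]
      have h2 := val_sub hN (C := C) (e := e) (fun i => hCE _ (he i)) m
      rw [Finset.sum_range] at h2
      exact lt_of_le_of_lt h2 hm)
  -- comparison
  have hE0 : (0 : ℝ) < E.card := by
    exact_mod_cast Finset.card_pos.2 ⟨e₀, he₀⟩
  have h2 : (S.card : ℝ) ≤ (Y / δ) ^ (θ - ε) := by
    calc (S.card : ℝ) ≤ (E.card : ℝ) ^ m := by exact_mod_cast hScard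
      _ ≤ ((N : ℝ) ^ (θ - ε)) ^ m := pow_le_pow_left₀ hE0.le hcon.le m
      _ = ((N : ℝ) ^ m) ^ (θ - ε) := by
          rw [← Real.rpow_natCast, ← Real.rpow_natCast, ← Real.rpow_mul hN0.le,
            ← Real.rpow_mul hN0.le]
          congr 1
          ring
      _ ≤ _ := Real.rpow_le_rpow (by positivity) hNm (by linarith)
  have h3 := h1.trans h2
  have hX : 2 * Y < δ ^ (-(ε / 2)) := by
    have h4 : δ < (2 * Y) ^ (-(2 / ε)) := lt_of_lt_of_le hδδ₀ (by rw [hδ₀]; exact min_le_right _ _)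
    have h5 : ((2 * Y) ^ (-(2 / ε))) ^ (-(ε / 2)) < δ ^ (-(ε / 2)) :=
      Real.rpow_lt_rpow_of_neg hδ h4 (by linarith)
    rw [← Real.rpow_mul (by linarith)] at h5
    have e1 : -(2 / ε) * -(ε / 2) = 1 := by field_simp
    rwa [e1, Real.rpow_one] at h5
  have h6 : (Y / δ) ^ (θ - ε) ≤ Y * δ ^ (-(θ - ε)) := by
    rw [Real.div_rpow (by linarith) hδ.le, Real.rpow_neg hδ.le, div_eq_mul_inv]
    apply mul_le_mul_of_nonneg_right _ (by positivity)
    calc Y ^ (θ - ε) ≤ Y ^ (1 : ℝ) := Real.rpow_le_rpow_of_exponent_le hY1 (by linarith)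
      _ = Y := Real.rpow_one _
  have h7 : δ ^ (-(((1 : ℕ) : ℝ) * θ - ε / 2)) = δ ^ (-(ε / 2)) * δ ^ (-(θ - ε)) := by
    rw [← Real.rpow_add hδ]
    congr 1
    push_cast
    ring
  rw [h7] at h3
  have h8 := h3.trans h6
  have h9 : 0 < δ ^ (-(θ - ε)) := by positivity
  have h10 := le_of_mul_le_mul_right h8 h9
  linarith

theorem realT_of_setsT {θ : ℝ} (hθ0 : 0 < θ) (h : SetsT θ) : RealT θ := by
  classical
  intro n ε hε
  rcases Nat.eq_zero_or_pos n with hn0 | hn0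
  · -- dimension zero
    subst hn0
    refine ⟨1, fun B hB δ₀ hδ₀ => ⟨min (δ₀ / 2) 1, by positivity, ?_, fun S hS => ?_⟩⟩
    · exact lt_of_le_of_lt (min_le_left _ _) (by linarith)
    · obtain ⟨a, ha⟩ := hB 0 (fun i => i.elim0)
      have h1 := hS (ha 0 (by norm_num))
      rw [Set.mem_iUnion₂] at h1
      obtain ⟨x, hx, -⟩ := h1
      have h2 : 0 < S.card := Finset.card_pos.2 ⟨x, hx⟩
      have h3 : (1 : ℝ) ≤ S.card := by exact_mod_cast h2
      refine le_trans ?_ h3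
      apply Real.rpow_le_one (by positivity) (min_le_right _ _)
      simp only [Nat.cast_zero, zero_mul]
      linarith
  · have hnr : (1 : ℝ) ≤ n := by exact_mod_cast hn0
    obtain ⟨η, hη⟩ : ∃ η, η = min ε θ / (2 * n) := ⟨_, rfl⟩
    have hmin : 0 < min ε θ := lt_min hε hθ0
    have hη0 : 0 < η := by rw [hη]; positivity
    have hη1 : n * η ≤ ε / 2 := by
      rw [hη]
      have e : (n : ℝ) * (min ε θ / (2 * n)) = min ε θ / 2 := by field_simp
      rw [e]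
      have := min_le_left ε θ
      linarith
    have hη2 : η ≤ θ := by
      rw [hη, div_le_iff₀ (by positivity)]
      have := min_le_right ε θ
      nlinarith
    obtain ⟨k, N₀, hN₀⟩ := h η hη0
    refine ⟨k + 1, fun B hB δ₀ hδ₀ => ?_⟩
    -- the scale
    have hev : ∀ᶠ X : ℝ in atTop, 2 * 3 ^ n ≤ X ^ (ε / 2) :=
      (tendsto_rpow_atTop (by positivity)).eventually_ge_atTop _
    obtain ⟨X₁, hX₁⟩ := eventually_atTop.1 hev
    obtain ⟨X₂, hX₂⟩ : ∃ X₂ : ℝ, X₂ = max (max X₁ N₀) 1 := ⟨_, rfl⟩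
    have hX21 : X₁ ≤ X₂ := by rw [hX₂]; exact le_trans (le_max_left _ _) (le_max_left _ _)
    have hX22 : (N₀ : ℝ) ≤ X₂ := by rw [hX₂]; exact le_trans (le_max_right _ _) (le_max_left _ _)
    have hX23 : 1 ≤ X₂ := by rw [hX₂]; exact le_max_right _ _
    obtain ⟨δ, hδd⟩ : ∃ δ, δ = min (δ₀ / 2) (1 / X₂) := ⟨_, rfl⟩
    have hδ : 0 < δ := by rw [hδd]; positivity
    have hδ1 : δ < δ₀ := by
      rw [hδd]
      exact lt_of_le_of_lt (min_le_left _ _) (by linarith)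
    refine ⟨δ, hδ, hδ1, fun S hS => ?_⟩
    obtain ⟨X, hX⟩ : ∃ X, X = 1 / δ := ⟨_, rfl⟩
    have hXX : X₂ ≤ X := by
      rw [hX, le_div_iff₀ hδ]
      have h1 : δ ≤ 1 / X₂ := by rw [hδd]; exact min_le_right _ _
      rw [le_div_iff₀ (by linarith)] at h1
      linarith
    have hX1 : 1 ≤ X := by linarith
    have hX0 : 0 < X := by linarith
    have hδX : δ = X⁻¹ := by rw [hX]; simp
    obtain ⟨M, hM⟩ : ∃ M, M = ⌊X⌋₊ := ⟨_, rfl⟩
    have hM1 : (M : ℝ) ≤ X := by rw [hM]; exact Nat.floor_le (by linarith)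
    have hM2 : X < M + 1 := by rw [hM]; exact Nat.lt_floor_add_one _
    have hM3 : 1 ≤ M := by rw [hM]; exact Nat.le_floor (by push_cast; linarith)
    obtain ⟨N, hN⟩ : ∃ N, N = (M + 1) ^ n := ⟨_, rfl⟩
    have hMN : M + 1 ≤ N := by
      rw [hN]
      calc M + 1 = (M + 1) ^ 1 := (pow_one _).symm
        _ ≤ (M + 1) ^ n := Nat.pow_le_pow_right (by omega) hn0
    have hNN₀ : N₀ ≤ N := by
      have h1 : (N₀ : ℝ) < M + 1 := by linarith
      have h2 : N₀ < M + 1 := by exact_mod_cast h1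
      omega
    have hcount := cover_count (n := n) (M := M) (k := k) hM3 hδ
      (by rw [hδX, ← div_eq_mul_inv, div_le_one hX0]; exact hM1)
      (A := (N : ℝ) ^ (1 - θ + η)) (by positivity)
      (fun D hD E hE => hN₀ N hNN₀ D (by rw [hN]; exact hD) E hE) B hB S hS
    rw [← hN] at hcount
    have hNr : (2 : ℝ) ≤ N := by
      have : 2 ≤ N := by omega
      exact_mod_cast this
    have hN0 : (0 : ℝ) < N := by linarith
    have hNX : X ^ (n : ℝ) ≤ N := by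
      rw [hN, Real.rpow_natCast]
      push_cast
      exact pow_le_pow_left₀ hX0.le hM2.le n
    have h1 : (N : ℝ) / 2 ≤ ((N - 1 : ℕ) : ℝ) := by
      rw [Nat.cast_sub (by omega)]
      push_cast
      linarith
    have h2 : (N : ℝ) ^ (θ - η) ≤ 2 * 3 ^ n * S.card := by
      have h3 : (N : ℝ) ^ (1 - θ + η) * (N : ℝ) ^ (θ - η) ≤
          (N : ℝ) ^ (1 - θ + η) * (2 * 3 ^ n * S.card) := by
        calc (N : ℝ) ^ (1 - θ + η) * (N : ℝ) ^ (θ - η) = N := by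
              rw [← Real.rpow_add hN0]; simp
          _ ≤ 2 * ((N : ℝ) ^ (1 - θ + η) * (3 ^ n * S.card)) := by linarith
          _ = _ := by ring
      exact le_of_mul_le_mul_left h3 (by positivity)
    have h4 : X ^ ((n : ℝ) * θ - ε / 2) ≤ (N : ℝ) ^ (θ - η) := by
      calc X ^ ((n : ℝ) * θ - ε / 2) ≤ X ^ ((n : ℝ) * (θ - η)) := by
            apply Real.rpow_le_rpow_of_exponent_le hX1
            linarith
        _ = (X ^ (n : ℝ)) ^ (θ - η) := by rw [Real.rpow_mul hX0.le]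
        _ ≤ _ := Real.rpow_le_rpow (by positivity) hNX (by linarith)
    have h5 : 2 * 3 ^ n ≤ X ^ (ε / 2) := hX₁ X (by linarith)
    have h6 : (2 * 3 ^ n) * δ ^ (-((n : ℝ) * θ - ε)) ≤ (2 * 3 ^ n) * (S.card : ℝ) := by
      calc (2 * 3 ^ n) * δ ^ (-((n : ℝ) * θ - ε)) ≤ X ^ (ε / 2) * δ ^ (-((n : ℝ) * θ - ε)) :=
            mul_le_mul_of_nonneg_right h5 (by positivity)
        _ = X ^ (ε / 2) * X ^ ((n : ℝ) * θ - ε) := by
            rw [hδX, Real.inv_rpow hX0.le, Real.rpow_neg hX0.le, inv_inv]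
        _ = X ^ ((n : ℝ) * θ - ε / 2) := by
            rw [← Real.rpow_add hX0]; congr 1; ring
        _ ≤ _ := h4.trans h2
        _ = _ := by ring
    exact le_of_mul_le_mul_left h6 (by positivity)

end Pool.Agent.H605.FixT
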