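import Pool.Agent.H605.FixT.Real

/-!
# Quantitative forms (exponent `θ`): one dimension `n` suffices
-/

set_option autoImplicit false

open Finset Filter

namespace Pool.Agent.H605.FixT

open Pool.Agent.H605.Web Pool.Agent.H605.Fix

/-- upper Minkowski dimension at least `n θ - ε`, in the dimension `n` -/
def RealTn (θ : ℝ) (n : ℕ) : Prop :=
  ∀ ε : ℝ, 0 < ε → ∃ k : ℕ,
    ∀ B : Set (EuclideanSpace ℝ (Fin n)),
      (∀ d : EuclideanSpace ℝ (Fin n), (∀ i, d i ∈ Set.Icc (0:ℝ) 1) →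
        ∃ a : EuclideanSpace ℝ (Fin n), ∀ j : ℕ, j < k → a + (j : ℝ) • d ∈ B) →
      ∀ δ₀ : ℝ, 0 < δ₀ → ∃ δ : ℝ, 0 < δ ∧ δ < δ₀ ∧
        ∀ S : Finset (EuclideanSpace ℝ (Fin n)),
          B ⊆ (⋃ x ∈ S, Metric.ball x δ) →
          δ ^ (-((n : ℝ) * θ - ε)) ≤ (S.card : ℝ)

theorem dist_le_coord {n : ℕ} (hn : 1 ≤ n) {f g : Fin n → ℝ} {r : ℝ}
    (h : ∀ i, |f i - g i| ≤ r) :
    dist (WithLp.toLp 2 f : EuclideanSpace ℝ (Fin n)) (WithLp.toLp 2 g) ≤ n * r := by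
  have hr : 0 ≤ r := (abs_nonneg _).trans (h ⟨0, hn⟩)
  have hnr : (1 : ℝ) ≤ n := by exact_mod_cast hn
  rw [EuclideanSpace.dist_eq]
  apply Real.sqrt_le_iff.2
  refine ⟨by positivity, ?_⟩
  calc ∑ i, dist ((WithLp.toLp 2 f : EuclideanSpace ℝ (Fin n)) i)
        ((WithLp.toLp 2 g : EuclideanSpace ℝ (Fin n)) i) ^ 2 ≤ ∑ _i : Fin n, r ^ 2 := by
        apply Finset.sum_le_sum
        intro i _
        have h1 : dist ((WithLp.toLp 2 f : EuclideanSpace ℝ (Fin n)) i)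
          ((WithLp.toLp 2 g : EuclideanSpace ℝ (Fin n)) i) = |f i - g i| := Real.dist_eq _ _
        rw [h1]
        exact pow_le_pow_left₀ (abs_nonneg _) (h i) 2
    _ = n * r ^ 2 := by rw [Finset.sum_const, card_univ, Fintype.card_fin, nsmul_eq_mul]
    _ ≤ (n * r) ^ 2 := by
        rw [mul_pow]
        apply mul_le_mul_of_nonneg_right _ (by positivity)
        nlinarith

set_option maxHeartbeats 1000000 in
theorem fullT_of_realTn {n : ℕ} (hn : 1 ≤ n) {θ : ℝ} (hθ1 : θ ≤ 1) (h : RealTn θ n) :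
    FullT θ := by
  classical
  intro ε hε
  rcases le_or_gt θ ε with hε1 | hε1
  · -- trivial range
    refine ⟨1, 1, fun N hN E hE => ?_⟩
    have hNr : (1 : ℝ) ≤ N := by exact_mod_cast hN
    obtain ⟨a, ha⟩ := hE 1 le_rfl hN
    have h1 : 0 < E.card := Finset.card_pos.2 ⟨_, ha 0 (by norm_num)⟩
    calc (N : ℝ) ^ (θ - ε) ≤ (N : ℝ) ^ (0 : ℝ) :=
          Real.rpow_le_rpow_of_exponent_le hNr (by linarith)
      _ = 1 := Real.rpow_zero _
      _ ≤ E.card := by exact_mod_cast h1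
  obtain ⟨k, hk⟩ := h (ε / 2) (by positivity)
  have hnr : (1 : ℝ) ≤ n := by exact_mod_cast hn
  refine ⟨k, 2, fun N hN E hE => ?_⟩
  by_contra hcon
  push Not at hcon
  have hNr : (2 : ℝ) ≤ N := by exact_mod_cast hN
  have hN0 : (0 : ℝ) < N := by linarith
  have : NeZero N := ⟨by omega⟩
  obtain ⟨a1, ha1⟩ := hE 1 le_rfl (by omega)
  have hEne : E.Nonempty := ⟨_, ha1 0 (by simp)⟩
  obtain ⟨e₀, he₀⟩ := hEne
  -- the first terms for the digits
  have hA : ∀ c : Fin N, ∃ a : ℤ, ∀ j : ℕ, j < k → a + j * (c : ℕ) ∈ E := by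
    intro c
    rcases Nat.eq_zero_or_pos (c : ℕ) with h0 | h0
    · refine ⟨e₀, fun j _ => ?_⟩
      rw [h0]
      simpa using he₀
    · obtain ⟨a, ha⟩ := hE c h0 c.isLt.le
      exact ⟨a, fun j hj => ha j (by exact_mod_cast hj.le)⟩
  choose A hA using hA
  -- a bound for the elements of `E`
  obtain ⟨C, hC1, hCE⟩ : ∃ C : ℝ, 1 ≤ C ∧ ∀ e ∈ E, |(e : ℝ)| ≤ C := by
    refine ⟨1 + ∑ e ∈ E, |(e : ℝ)|, ?_, fun e he => ?_⟩
    · have : 0 ≤ ∑ e ∈ E, |(e : ℝ)| := Finset.sum_nonneg fun _ _ => abs_nonneg _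
      linarith
    · have := Finset.single_le_sum (f := fun e : ℤ => |(e : ℝ)|) (fun _ _ => abs_nonneg _) he
      linarith
  obtain ⟨B, hB⟩ : ∃ B : Set (EuclideanSpace ℝ (Fin n)), B =
    {x | ∃ e : Fin n → ℕ → ℤ, (∀ i l, e i l ∈ E) ∧
      x = WithLp.toLp 2 fun i => Fix.val N (e i)} := ⟨_, rfl⟩
  obtain ⟨C₁, hC₁⟩ : ∃ C₁ : ℝ, C₁ = n * C := ⟨_, rfl⟩
  have hC₁1 : 1 ≤ C₁ := by rw [hC₁]; nlinarith
  obtain ⟨Y, hY⟩ : ∃ Y : ℝ, Y = C₁ * N := ⟨_, rfl⟩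
  have hY1 : 1 ≤ Y := by rw [hY]; nlinarith
  obtain ⟨δ₀, hδ₀⟩ : ∃ δ₀ : ℝ, δ₀ = min 1 ((2 * Y ^ n) ^ (-(2 / ε))) := ⟨_, rfl⟩
  have hδ₀0 : 0 < δ₀ := by rw [hδ₀]; positivity
  obtain ⟨δ, hδ, hδδ₀, hS⟩ := hk B (by
    intro d hd
    have hdig : ∀ i, ∃ dig : ℕ → Fin N, Real.ofDigits dig = d i := by
      intro i
      obtain ⟨dig, -, hdig⟩ := Real.ofDigits_SurjOn (b := N) (by omega) (hd i)
      exact ⟨dig, hdig⟩
    choose dig hdig using hdig
    refine ⟨WithLp.toLp 2 fun i => Fix.val N fun l => A (dig i l), fun j hj => ?_⟩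
    rw [hB]
    refine ⟨fun i l => A (dig i l) + j * ((dig i l : ℕ) : ℤ), fun i l => hA (dig i l) j hj, ?_⟩
    ext i
    have hs1 : Summable fun l => ((A (dig i l) : ℤ) : ℝ) * ((N : ℝ) ^ (l + 1))⁻¹ := by
      obtain ⟨C', hC'⟩ : ∃ C' : ℝ, ∀ c : Fin N, |((A c : ℤ) : ℝ)| ≤ C' :=
        ⟨∑ c, |((A c : ℤ) : ℝ)|, fun c =>
          Finset.single_le_sum (f := fun c => |((A c : ℤ) : ℝ)|) (fun _ _ => abs_nonneg _)
            (mem_univ c)⟩
      exact summable_val hN (C := C') fun i => hC' _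
    have hs2 : Summable fun l => (j : ℝ) * (((dig i l : ℕ) : ℝ) * ((N : ℝ) ^ (l + 1))⁻¹) :=
      (Real.summable_ofDigitsTerm (digits := dig i)).mul_left _
    have e1 : Fix.val N (fun l => A (dig i l) + j * ((dig i l : ℕ) : ℤ)) =
        Fix.val N (fun l => A (dig i l)) + j * Real.ofDigits (dig i) := by
      rw [Fix.val, Fix.val, Real.ofDigits, ← tsum_mul_left]
      rw [← hs1.tsum_add (g := fun l => (j : ℝ) * Real.ofDigitsTerm (dig i) l) hs2]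
      refine tsum_congr fun l => ?_
      rw [Real.ofDigitsTerm]
      push_cast
      ring
    have e2 : (WithLp.toLp 2 (fun i => Fix.val N fun l => A (dig i l)) + (j : ℝ) • d :
        EuclideanSpace ℝ (Fin n)) i = Fix.val N (fun l => A (dig i l)) + j * d i := by
      simp
    rw [e2, ← hdig i, ← e1]) δ₀ hδ₀0
  have hδ1 : δ < 1 := lt_of_lt_of_le hδδ₀ (by rw [hδ₀]; exact min_le_left _ _)
  -- the level
  have hex : ∃ m : ℕ, C₁ * ((N : ℝ) ^ m)⁻¹ < δ := by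
    obtain ⟨m, hm⟩ := exists_pow_lt_of_lt_one (show 0 < δ / C₁ by positivity)
      (inv_lt_one_of_one_lt₀ (by linarith : (1 : ℝ) < N))
    refine ⟨m, ?_⟩
    rw [inv_pow, lt_div_iff₀ (by linarith)] at hm
    linarith
  obtain ⟨m, hm, hmin⟩ : ∃ m : ℕ, C₁ * ((N : ℝ) ^ m)⁻¹ < δ ∧
      ∀ m' < m, ¬ C₁ * ((N : ℝ) ^ m')⁻¹ < δ :=
    ⟨Nat.find hex, Nat.find_spec hex, fun m' hm' => Nat.find_min hex hm'⟩
  have hm1 : 1 ≤ m := by
    rcases Nat.eq_zero_or_pos m with h0 | h0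
    · rw [h0, pow_zero, inv_one, mul_one] at hm
      linarith
    · exact h0
  have hNm : (N : ℝ) ^ m ≤ Y / δ := by
    have h1 := hmin (m - 1) (by omega)
    push Not at h1
    rw [le_div_iff₀ hδ]
    have h2 : (N : ℝ) ^ m = N * (N : ℝ) ^ (m - 1) := by
      rw [← pow_succ']; congr 1; omega
    have h3 : (0 : ℝ) < (N : ℝ) ^ (m - 1) := by positivity
    rw [← div_eq_mul_inv, le_div_iff₀ h3] at h1
    rw [h2, hY]
    nlinarith
  -- the covering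
  obtain ⟨S, hSd⟩ : ∃ S : Finset (EuclideanSpace ℝ (Fin n)), S =
    (Fintype.piFinset fun _ : Fin n => Fintype.piFinset fun _ : Fin m => E).image fun e =>
      WithLp.toLp 2 fun i => ∑ l : Fin m, (e i l : ℝ) * ((N : ℝ) ^ ((l : ℕ) + 1))⁻¹ := ⟨_, rfl⟩
  have hScard : S.card ≤ (E.card ^ m) ^ n := by
    rw [hSd]
    refine card_image_le.trans (le_of_eq ?_)
    rw [Fintype.card_piFinset, Finset.prod_const, card_univ, Fintype.card_fin,
      Fintype.card_piFinset, Finset.prod_const, card_univ, Fintype.card_fin]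
  have h1 := hS S (by
    intro x hx
    rw [hB] at hx
    obtain ⟨e, he, rfl⟩ := hx
    rw [Set.mem_iUnion₂]
    refine ⟨WithLp.toLp 2 fun i => ∑ l : Fin m, (e i l : ℝ) * ((N : ℝ) ^ ((l : ℕ) + 1))⁻¹, ?_, ?_⟩
    · rw [hSd, mem_image]
      exact ⟨fun i l => e i l, Fintype.mem_piFinset.2 fun i =>
        Fintype.mem_piFinset.2 fun l => he i l, rfl⟩
    · rw [Metric.mem_ball]
      refine lt_of_le_of_lt (dist_le_coord hn (r := C * ((N : ℝ) ^ m)⁻¹) fun i => ?_) ?_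
      · have h2 := val_sub hN (C := C) (e := e i) (fun l => hCE _ (he i l)) m
        rw [Finset.sum_range] at h2
        exact h2
      · calc (n : ℝ) * (C * ((N : ℝ) ^ m)⁻¹) = C₁ * ((N : ℝ) ^ m)⁻¹ := by rw [hC₁]; ring
          _ < δ := hm)
  -- comparison
  have hE0 : (0 : ℝ) < E.card := by
    exact_mod_cast Finset.card_pos.2 ⟨e₀, he₀⟩
  have h2 : (S.card : ℝ) ≤ ((Y / δ) ^ (θ - ε)) ^ n := by
    calc (S.card : ℝ) ≤ ((E.card : ℝ) ^ m) ^ n := by exact_mod_cast hScard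
      _ ≤ (((N : ℝ) ^ (θ - ε)) ^ m) ^ n :=
          pow_le_pow_left₀ (by positivity) (pow_le_pow_left₀ hE0.le hcon.le m) n
      _ = (((N : ℝ) ^ m) ^ (θ - ε)) ^ n := by
          congr 1
          rw [← Real.rpow_natCast, ← Real.rpow_natCast, ← Real.rpow_mul hN0.le,
            ← Real.rpow_mul hN0.le]
          congr 1
          ring
      _ ≤ _ := pow_le_pow_left₀ (by positivity)
          (Real.rpow_le_rpow (by positivity) hNm (by linarith)) n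
  have h3 := h1.trans h2
  have hYn : 1 ≤ Y ^ n := one_le_pow₀ hY1
  have hX : 2 * Y ^ n < δ ^ (-(ε / 2)) := by
    have h4 : δ < (2 * Y ^ n) ^ (-(2 / ε)) :=
      lt_of_lt_of_le hδδ₀ (by rw [hδ₀]; exact min_le_right _ _)
    have h5 : ((2 * Y ^ n) ^ (-(2 / ε))) ^ (-(ε / 2)) < δ ^ (-(ε / 2)) :=
      Real.rpow_lt_rpow_of_neg hδ h4 (by linarith)
    rw [← Real.rpow_mul (by linarith)] at h5
    have e1 : -(2 / ε) * -(ε / 2) = 1 := by field_simp
    rwa [e1, Real.rpow_one] at h5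
  obtain ⟨W, hW⟩ : ∃ W : ℝ, W = δ ^ (-((n : ℝ) * (θ - ε))) := ⟨_, rfl⟩
  have hW0 : 0 < W := by rw [hW]; positivity
  have h6 : ((Y / δ) ^ (θ - ε)) ^ n ≤ Y ^ n * W := by
    calc ((Y / δ) ^ (θ - ε)) ^ n = (Y ^ (θ - ε)) ^ n * W := by
          rw [Real.div_rpow (by linarith) hδ.le, div_pow, div_eq_mul_inv, hW]
          congr 1
          rw [← Real.rpow_natCast, ← Real.rpow_mul hδ.le, ← Real.rpow_neg hδ.le]
          congr 1
          ring
      _ ≤ _ := by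
          apply mul_le_mul_of_nonneg_right _ hW0.le
          apply pow_le_pow_left₀ (by positivity)
          calc Y ^ (θ - ε) ≤ Y ^ (1 : ℝ) := Real.rpow_le_rpow_of_exponent_le hY1 (by linarith)
            _ = Y := Real.rpow_one _
  have h7 : δ ^ (-(ε / 2)) * W ≤ δ ^ (-((n : ℝ) * θ - ε / 2)) := by
    rw [hW, ← Real.rpow_add hδ]
    apply Real.rpow_le_rpow_of_exponent_ge hδ hδ1.le
    nlinarith
  have h8 : δ ^ (-(ε / 2)) * W ≤ Y ^ n * W := h7.trans (h3.trans h6)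
  have h10 := le_of_mul_le_mul_right h8 hW0
  linarith

end Pool.Agent.H605.FixT
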